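import Pool.Agent.D0H11.GF.Stm

/-! Project GF, module 5 (BC): Borel–Cantelli along powers of two (after `D0H91/UB/Bc.lean`). -/

set_option autoImplicit false

namespace Pool.Agent.D0H12.GF

open Finset MeasureTheory Filter Topology
open scoped ENNReal
open Pool.Agent.D0H11.GF

theorem ev_logge (c : ℝ) : ∀ᶠ N : ℕ in atTop, c ≤ Real.log N :=
  (Real.tendsto_log_atTop.comp tendsto_natCast_atTop_atTop).eventually_ge_atTop c

open Classical in
/-- the exceptional count -/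
noncomputable def Ex (f : ℕ → ℝ) (A N : ℕ) : ℕ :=
  ((Icc 1 N).filter fun n => (N : ℝ) / Real.log N ^ A < f n).card

theorem det_dy (f : ℕ → ℝ) (hf : ∀ n, 0 ≤ f n) (A : ℕ)
    (h : ∀ᶠ i : ℕ in atTop, ∑ n ∈ Icc 1 (2 ^ i), f n ^ 2 ≤
      ((2 : ℝ) ^ i) ^ 3 / Real.log ((2 : ℝ) ^ i) ^ (3 * A + 3)) :
    ∀ᶠ N : ℕ in atTop, (Ex f A N : ℝ) ≤ N / Real.log N ^ A := by
  classical
  obtain ⟨i0, hi0⟩ := h.exists_forall_of_atTop
  filter_upwards [eventually_ge_atTop (2 ^ (i0 + 1) + 2), ev_logge 2] with N hN hL2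
  have hN2 : 2 ≤ N := by
    have : 0 < 2 ^ (i0 + 1) := by positivity
    omega
  have hNr : (2 : ℝ) ≤ N := by exact_mod_cast hN2
  have hN0 : (0 : ℝ) < N := by linarith
  obtain ⟨i, hi⟩ : ∃ i, i = Nat.log 2 N + 1 := ⟨_, rfl⟩
  have h1 : N ≤ 2 ^ i := by
    rw [hi]
    exact (Nat.lt_pow_succ_log_self (by norm_num) N).le
  have h2 : 2 ^ i ≤ 2 * N := by
    rw [hi, pow_succ, mul_comm]
    exact Nat.mul_le_mul_left 2 (Nat.pow_log_le_self 2 (by omega))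
  have h3 : i0 ≤ i := by
    by_contra hc
    push Not at hc
    have : 2 ^ i ≤ 2 ^ i0 := Nat.pow_le_pow_right (by norm_num) hc.le
    have h4 : 2 ^ (i0 + 1) = 2 * 2 ^ i0 := by rw [pow_succ, mul_comm]
    omega
  have h5 := hi0 i h3
  obtain ⟨X, hX⟩ : ∃ X : ℝ, X = (2 : ℝ) ^ i := ⟨_, rfl⟩
  have hXn : ((2 ^ i : ℕ) : ℝ) = X := by
    rw [hX]
    push_cast
    rfl
  have hNX : (N : ℝ) ≤ X := by
    rw [← hXn]
    exact_mod_cast h1
  have hX2 : X ≤ 2 * N := by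
    rw [← hXn]
    exact_mod_cast h2
  rw [← hX] at h5
  obtain ⟨L, hL⟩ : ∃ L, L = Real.log (N : ℝ) := ⟨_, rfl⟩
  obtain ⟨ℓ, hℓ⟩ : ∃ ℓ, ℓ = Real.log X := ⟨_, rfl⟩
  rw [← hL] at hL2
  rw [← hℓ] at h5
  rw [← hL]
  have hLl : L ≤ ℓ := by
    rw [hL, hℓ]
    exact Real.log_le_log hN0 hNX
  have hL0 : 0 < L := by linarith
  have hℓ0 : 0 < ℓ := by linarith
  have hX0 : 0 < X := by linarith
  have hc : X / ℓ ^ (A + 1) ≤ N / L ^ A := by
    calc X / ℓ ^ (A + 1) ≤ (2 * N) / L ^ (A + 1) := by gcongr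
      _ = N / L ^ A * (2 / L) := by
          rw [pow_succ]
          field_simp
      _ ≤ N / L ^ A * 1 := by
          gcongr
          rw [div_le_one hL0]
          exact hL2
      _ = _ := mul_one _
  have h6 : (Ex f A N : ℝ) * (X / ℓ ^ (A + 1)) ^ 2 ≤ X ^ 3 / ℓ ^ (3 * A + 3) := by
    refine le_trans ?_ h5
    unfold Ex
    rw [← hL, ← nsmul_eq_mul, ← Finset.sum_const]
    calc ∑ n ∈ (Icc 1 N).filter (fun n => (N : ℝ) / L ^ A < f n), (X / ℓ ^ (A + 1)) ^ 2 ≤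
        ∑ n ∈ (Icc 1 N).filter (fun n => (N : ℝ) / L ^ A < f n), f n ^ 2 := by
          refine Finset.sum_le_sum fun n hn => ?_
          rw [Finset.mem_filter] at hn
          apply pow_le_pow_left₀ (by positivity)
          linarith [hn.2]
      _ ≤ ∑ n ∈ Icc 1 (2 ^ i), f n ^ 2 := by
          refine Finset.sum_le_sum_of_subset_of_nonneg ?_ fun n _ _ => sq_nonneg _
          intro n hn
          rw [Finset.mem_filter, Finset.mem_Icc] at hn
          rw [Finset.mem_Icc]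
          omega
  have h7 : (Ex f A N : ℝ) ≤ X / ℓ ^ (A + 1) := by
    have h8 : 0 < (X / ℓ ^ (A + 1)) ^ 2 := by positivity
    rw [← le_div_iff₀ h8] at h6
    refine h6.trans (le_of_eq ?_)
    rw [show 3 * A + 3 = (A + 1) * 3 by ring, pow_mul]
    field_simp
  exact h7.trans hc

theorem bc {Ω : Type} [MeasurableSpace Ω] (μ : Measure Ω) (F : ℕ → Ω → ℝ)
    (hFm : ∀ n, Measurable (F n))
    (H : ∀ A : ℕ, ∀ᶠ N : ℕ in atTop, ∫⁻ w, ∑ n ∈ Icc 1 N, ENNReal.ofReal (F n w ^ 2) ∂μ ≤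
      ENNReal.ofReal ((N : ℝ) ^ 3 / Real.log N ^ A)) :
    ∀ᵐ w ∂μ, ∀ A : ℕ, ∀ᶠ N : ℕ in atTop,
      (Ex (fun n => |F n w|) A N : ℝ) ≤ N / Real.log N ^ A := by
  rw [ae_all_iff]
  intro A
  obtain ⟨N1, hN1⟩ := (H (3 * A + 5)).exists_forall_of_atTop
  obtain ⟨G, hG⟩ : ∃ G : ℕ → Ω → ℝ≥0∞, G = fun i w =>
    ENNReal.ofReal (Real.log ((2 : ℝ) ^ (i + (N1 + 1))) ^ (3 * A + 3) /
      ((2 : ℝ) ^ (i + (N1 + 1))) ^ 3) *
      ∑ n ∈ Icc 1 (2 ^ (i + (N1 + 1))), ENNReal.ofReal (F n w ^ 2) := ⟨_, rfl⟩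
  have hSm : ∀ N : ℕ, Measurable fun w => ∑ n ∈ Icc 1 N, ENNReal.ofReal (F n w ^ 2) := by
    intro N
    refine Finset.measurable_fun_sum _ fun n _ => ?_
    exact ((hFm n).pow_const 2).ennreal_ofReal
  have hGm : ∀ i, Measurable (G i) := by
    intro i
    rw [hG]
    exact (hSm _).const_mul _
  have hGi : ∀ i, ∫⁻ w, G i w ∂μ ≤ ENNReal.ofReal (4 * ((i + 1 : ℕ) : ℝ) ^ (-2 : ℝ)) := by
    intro i
    obtain ⟨j, hj⟩ : ∃ j, j = i + (N1 + 1) := ⟨_, rfl⟩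
    rw [hG]
    simp only [← hj]
    rw [lintegral_const_mul _ (hSm _)]
    have hjN : N1 ≤ 2 ^ j := by
      have : j < 2 ^ j := Nat.lt_two_pow_self
      omega
    have h1 := hN1 (2 ^ j) hjN
    have h2 : ((2 ^ j : ℕ) : ℝ) = (2 : ℝ) ^ j := by push_cast; rfl
    rw [h2] at h1
    refine (mul_le_mul_right h1 _).trans ?_
    have hlog : Real.log ((2 : ℝ) ^ j) = j * Real.log 2 := Real.log_pow _ _
    have hj1 : (1 : ℝ) ≤ j := by
      have : 1 ≤ j := by omega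
      exact_mod_cast this
    have hl2 := Real.log_two_gt_d9
    have hlp : 0 < Real.log ((2 : ℝ) ^ j) := by
      rw [hlog]
      positivity
    rw [← ENNReal.ofReal_mul (by positivity)]
    apply ENNReal.ofReal_le_ofReal
    have e1 : Real.log ((2 : ℝ) ^ j) ^ (3 * A + 3) / ((2 : ℝ) ^ j) ^ 3 *
        (((2 : ℝ) ^ j) ^ 3 / Real.log ((2 : ℝ) ^ j) ^ (3 * A + 5)) =
          1 / Real.log ((2 : ℝ) ^ j) ^ 2 := by
      have q : Real.log ((2 : ℝ) ^ j) ^ (3 * A + 5) =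
          Real.log ((2 : ℝ) ^ j) ^ (3 * A + 3) * Real.log ((2 : ℝ) ^ j) ^ 2 := by
        rw [← pow_add]
      rw [q]
      field_simp
    rw [e1, hlog, Real.rpow_neg (by positivity), ← div_eq_mul_inv,
      div_le_div_iff₀ (by positivity) (by positivity), one_mul,
      show (2 : ℝ) = ((2 : ℕ) : ℝ) by norm_num, Real.rpow_natCast]
    have h3 : ((i + 1 : ℕ) : ℝ) ≤ j := by exact_mod_cast (by omega : i + 1 ≤ j)
    have h4 : ((i + 1 : ℕ) : ℝ) ≤ 2 * (j * Real.log ((2 : ℕ) : ℝ)) := by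
      push_cast at h3 ⊢
      nlinarith
    calc ((i + 1 : ℕ) : ℝ) ^ 2 ≤ (2 * (j * Real.log ((2 : ℕ) : ℝ))) ^ 2 :=
          pow_le_pow_left₀ (by positivity) h4 2
      _ = 4 * (j * Real.log ((2 : ℕ) : ℝ)) ^ 2 := by ring
  have hsum0 : Summable (fun i : ℕ => 4 * ((i + 1 : ℕ) : ℝ) ^ (-2 : ℝ)) := by
    have h1 : Summable (fun N : ℕ => (N : ℝ) ^ (-2 : ℝ)) := Real.summable_nat_rpow.2 (by norm_num)
    exact ((summable_nat_add_iff (f := fun N : ℕ => (N : ℝ) ^ (-2 : ℝ)) 1).2 h1).mul_left 4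
  have hfin : ∫⁻ w, ∑' i, G i w ∂μ ≠ ⊤ := by
    rw [lintegral_tsum fun i => (hGm i).aemeasurable]
    refine ne_of_lt (lt_of_le_of_lt (ENNReal.tsum_le_tsum hGi) ?_)
    exact hsum0.tsum_ofReal_lt_top
  have hae := ae_lt_top (Measurable.tsum hGm) hfin
  filter_upwards [hae] with w hw
  apply det_dy _ (fun n => abs_nonneg _)
  have ht := ENNReal.tendsto_atTop_zero_of_tsum_ne_top hw.ne
  have h1 : ∀ᶠ i : ℕ in atTop, G i w ≤ 1 := ht.eventually_le_const (by norm_num)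
  obtain ⟨i1, hi1⟩ := h1.exists_forall_of_atTop
  filter_upwards [eventually_ge_atTop (i1 + (N1 + 1))] with i hi
  have h2 := hi1 (i - (N1 + 1)) (by omega)
  rw [hG] at h2
  simp only [show i - (N1 + 1) + (N1 + 1) = i by omega] at h2
  have hj1 : (1 : ℝ) ≤ i := by
    have : 1 ≤ i := by omega
    exact_mod_cast this
  have hl2 := Real.log_two_gt_d9
  have hlp : 0 < Real.log ((2 : ℝ) ^ i) := by
    rw [Real.log_pow]
    positivity
  have e2 : ∑ n ∈ Icc 1 (2 ^ i), ENNReal.ofReal (F n w ^ 2) =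
      ENNReal.ofReal (∑ n ∈ Icc 1 (2 ^ i), |F n w| ^ 2) := by
    rw [ENNReal.ofReal_sum_of_nonneg fun n _ => sq_nonneg _]
    refine Finset.sum_congr rfl fun n _ => ?_
    rw [sq_abs]
  rw [e2, ← ENNReal.ofReal_mul (by positivity), ← ENNReal.ofReal_one,
    ENNReal.ofReal_le_ofReal_iff (by norm_num)] at h2
  rw [div_mul_eq_mul_div, div_le_one (by positivity)] at h2
  rw [le_div_iff₀ (by positivity), mul_comm]
  exact h2

theorem t_BC : S_BC := by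
  intro d S hSm hSb hH
  have h1 : ∀ K : ℕ, ∀ᵐ b ∂(volume.restrict (bx d ((K + 1 : ℕ) : ℝ))), ∀ A : ℕ,
      ∀ᶠ N : ℕ in atTop, (Ex (fun n => |S n b|) A N : ℝ) ≤ N / Real.log N ^ A := by
    intro K
    refine bc _ S hSm fun A => ?_
    filter_upwards [hH (K + 1) A (by omega)] with N hN
    have hfin : volume (bx d ((K + 1 : ℕ) : ℝ)) < ⊤ := by
      unfold bx
      exact isCompact_Icc.measure_lt_top
    have hint : ∀ n ∈ Icc 1 N, Integrable (fun b => S n b ^ 2)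
        (volume.restrict (bx d ((K + 1 : ℕ) : ℝ))) := by
      intro n _
      obtain ⟨M, hM⟩ := hSb n (K + 1)
      refine Measure.integrableOn_of_bounded (M := M ^ 2) hfin.ne
        ((hSm n).pow_const 2).aestronglyMeasurable ?_
      refine (ae_restrict_iff' measurableSet_Icc).2 (Eventually.of_forall fun b hb => ?_)
      rw [Real.norm_eq_abs, abs_pow]
      exact pow_le_pow_left₀ (abs_nonneg _) (hM b hb) 2
    have hint' : Integrable (fun b => ∑ n ∈ Icc 1 N, S n b ^ 2)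
        (volume.restrict (bx d ((K + 1 : ℕ) : ℝ))) := integrable_finsetSum _ hint
    have e1 : ∫⁻ w in bx d ((K + 1 : ℕ) : ℝ), ∑ n ∈ Icc 1 N, ENNReal.ofReal (S n w ^ 2) =
        ENNReal.ofReal (∫ b in bx d ((K + 1 : ℕ) : ℝ), ∑ n ∈ Icc 1 N, S n b ^ 2) := by
      rw [ofReal_integral_eq_lintegral_ofReal hint'
        (Eventually.of_forall fun b => Finset.sum_nonneg fun n _ => sq_nonneg _)]
      refine lintegral_congr fun b => ?_
      rw [ENNReal.ofReal_sum_of_nonneg fun n _ => sq_nonneg _]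
    rw [e1]
    exact ENNReal.ofReal_le_ofReal hN
  have h2 : ∀ᵐ b : Fin d → ℝ, ∀ K : ℕ, b ∈ bx d ((K + 1 : ℕ) : ℝ) → ∀ A : ℕ,
      ∀ᶠ N : ℕ in atTop, (Ex (fun n => |S n b|) A N : ℝ) ≤ N / Real.log N ^ A := by
    rw [ae_all_iff]
    intro K
    exact (ae_restrict_iff' measurableSet_Icc).1 (h1 K)
  filter_upwards [h2] with b hb A
  obtain ⟨K, hK⟩ := exists_nat_ge ‖b‖
  have hmem : b ∈ bx d ((K + 1 : ℕ) : ℝ) := by
    unfold bx
    rw [Set.mem_Icc, Pi.le_def, Pi.le_def]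
    have h3 : ∀ k, |b k| ≤ ((K + 1 : ℕ) : ℝ) := by
      intro k
      have h4 := norm_le_pi_norm b k
      rw [Real.norm_eq_abs] at h4
      push_cast
      linarith
    exact ⟨fun k => (abs_le.1 (h3 k)).1, fun k => (abs_le.1 (h3 k)).2⟩
  have h5 := hb K hmem A
  unfold Ex at h5
  exact h5

end Pool.Agent.D0H12.GF
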