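import Pool.Agent.D0H11.GF.Stm

/-! Project GF, module 1 (INT): interval integrals of the centred weight. -/

set_option autoImplicit false

namespace Pool.Agent.D0H12.GF

open Finset MeasureTheory Filter
open Pool.Agent.D0H11.GF

theorem ct_meas (c : ℕ → ℝ) : Measurable (ct c) := by
  unfold ct
  refine Measurable.ite measurableSet_Ici ?_ measurable_const
  exact ((measurable_from_nat (f := c)).comp Nat.measurable_floor).sub_const 1

theorem ct_bound {c : ℕ → ℝ} {E : ℕ} (hE : Gr E c) {R y : ℝ} (hR : 0 ≤ R) (hy : y ≤ R) :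
    |ct c y| ≤ Real.log (R + 3) ^ E + 1 := by
  have hlog : 0 ≤ Real.log (R + 3) := Real.log_nonneg (by linarith)
  unfold ct
  split_ifs with h
  · have h1 := hE ⌊y⌋₊
    have h2 : (⌊y⌋₊ : ℝ) ≤ y := Nat.floor_le h
    have h3 : Real.log ((⌊y⌋₊ : ℝ) + 3) ≤ Real.log (R + 3) :=
      Real.log_le_log (by positivity) (by linarith)
    have h4 : 0 ≤ Real.log ((⌊y⌋₊ : ℝ) + 3) := Real.log_nonneg (by
      have : (0 : ℝ) ≤ ⌊y⌋₊ := Nat.cast_nonneg _
      linarith)
    have h5 := pow_le_pow_left₀ h4 h3 E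
    have h6 : |c ⌊y⌋₊ - 1| ≤ |c ⌊y⌋₊| + |(1 : ℝ)| := abs_sub _ _
    rw [abs_one] at h6
    linarith
  · rw [abs_zero]
    positivity

theorem ct_ii {c : ℕ → ℝ} {E : ℕ} (hE : Gr E c) (a b : ℝ) :
    IntervalIntegrable (ct c) volume a b := by
  rw [intervalIntegrable_iff]
  refine Measure.integrableOn_of_bounded (M := Real.log (max |a| |b| + 3) ^ E + 1)
    (measure_Ioc_lt_top : volume (Set.Ioc (min a b) (max a b)) < ⊤).ne
    (ct_meas c).aestronglyMeasurable ?_
  refine (ae_restrict_iff' measurableSet_uIoc).2 (Eventually.of_forall fun y hy => ?_)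
  rw [Real.norm_eq_abs]
  have h1 : y ≤ max a b := hy.2
  have h2 : max a b ≤ max |a| |b| := max_le_max (le_abs_self _) (le_abs_self _)
  exact ct_bound hE (le_max_of_le_left (abs_nonneg _)) (h1.trans h2)

theorem int_nat {c : ℕ → ℝ} {E : ℕ} (hE : Gr E c) (k : ℕ) :
    ∫ y in (0 : ℝ)..k, ct c y = ∑ m ∈ range k, (c m - 1) := by
  induction k with
  | zero => simp
  | succ k ih =>
    rw [sum_range_succ, ← ih, ← intervalIntegral.integral_add_adjacent_intervals (ct_ii hE 0 k)
      (ct_ii hE k ((k + 1 : ℕ) : ℝ))]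
    congr 1
    have hle : (k : ℝ) ≤ ((k + 1 : ℕ) : ℝ) := by push_cast; linarith
    rw [intervalIntegral.integral_of_le hle, integral_Ioc_eq_integral_Ioo]
    have h1 : ∫ y in Set.Ioo (k : ℝ) ((k + 1 : ℕ) : ℝ), ct c y =
        ∫ _y in Set.Ioo (k : ℝ) ((k + 1 : ℕ) : ℝ), (c k - 1) := by
      refine setIntegral_congr_fun measurableSet_Ioo fun y hy => ?_
      have h2 : (0 : ℝ) ≤ k := Nat.cast_nonneg _
      have h3 : ⌊y⌋₊ = k := by
        rw [Nat.floor_eq_iff (by linarith [hy.1])]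
        refine ⟨hy.1.le, ?_⟩
        have := hy.2
        push_cast at this
        exact this
      unfold ct
      rw [if_pos (by linarith [hy.1]), h3]
    rw [h1, setIntegral_const, Real.volume_real_Ioo_of_le hle]
    push_cast
    simp

theorem sum_eq (c : ℕ → ℝ) (N : ℕ) :
    ∑ m ∈ range (N + 1), (c m - 1) = (c 0 - 1) + (∑ m ∈ Icc 1 N, c m - N) := by
  induction N with
  | zero => simp
  | succ N ih =>
    rw [sum_range_succ, ih, sum_Icc_succ_top (by omega)]
    push_cast
    ring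

/-- the bound -/
noncomputable def BB (C : ℝ) (A E : ℕ) (Y : ℝ) : ℝ :=
  |C| * 2 ^ (A + 1) * Y / Real.log Y ^ (A + 1) + (Real.sqrt Y + 2) * (Real.log (Y + 3) ^ E + 1)

theorem sum_bound {c : ℕ → ℝ} {E : ℕ} (hE : Gr E c) {A : ℕ} {C : ℝ}
    (hC : ∀ N : ℕ, 2 ≤ N → |∑ m ∈ Icc 1 N, c m - N| ≤ C * N / Real.log N ^ (A + 1))
    {Y : ℝ} (hY : 4 ≤ Y) {N : ℕ} (hN : (N : ℝ) ≤ Y) :
    |∑ m ∈ Icc 1 N, c m - N| ≤ |C| * 2 ^ (A + 1) * Y / Real.log Y ^ (A + 1) +
      Real.sqrt Y * (Real.log (Y + 3) ^ E + 1) := by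
  have hY0 : (0 : ℝ) < Y := by linarith
  have hlogY : 0 < Real.log Y := Real.log_pos (by linarith)
  have hlog3 : 0 ≤ Real.log (Y + 3) := Real.log_nonneg (by linarith)
  have hs : 2 ≤ Real.sqrt Y := by
    rw [show (2 : ℝ) = Real.sqrt 4 by rw [show (4 : ℝ) = 2 ^ 2 by norm_num]; simp]
    exact Real.sqrt_le_sqrt hY
  rcases le_or_gt (Real.sqrt Y) N with h | h
  · have hN2 : 2 ≤ N := by
      have : (2 : ℝ) ≤ N := hs.trans h
      exact_mod_cast this
    have h1 := hC N hN2
    have hN0 : (0 : ℝ) < N := by linarith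
    have h2 : Real.log Y / 2 ≤ Real.log N := by
      have := Real.log_le_log (by linarith) h
      rwa [Real.log_sqrt hY0.le] at this
    have h3 : C * N / Real.log N ^ (A + 1) ≤ |C| * Y / (Real.log Y / 2) ^ (A + 1) := by
      have : 0 < (Real.log Y / 2) ^ (A + 1) := by positivity
      have h4 : (Real.log Y / 2) ^ (A + 1) ≤ Real.log N ^ (A + 1) :=
        pow_le_pow_left₀ (by positivity) h2 _
      have h5 : C * N ≤ |C| * Y :=
        mul_le_mul (le_abs_self _) hN hN0.le (abs_nonneg _)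
      have h6 : 0 ≤ |C| * Y := by positivity
      calc C * N / Real.log N ^ (A + 1) ≤ |C| * Y / Real.log N ^ (A + 1) :=
            div_le_div_of_nonneg_right h5 (by linarith)
        _ ≤ _ := div_le_div_of_nonneg_left h6 this h4
    have h4 : |C| * Y / (Real.log Y / 2) ^ (A + 1) =
        |C| * 2 ^ (A + 1) * Y / Real.log Y ^ (A + 1) := by
      rw [div_pow]
      field_simp
    have h5 : 0 ≤ Real.sqrt Y * (Real.log (Y + 3) ^ E + 1) := by positivity
    linarith
  · have e1 : ∑ m ∈ Icc 1 N, c m - N = ∑ m ∈ Icc 1 N, (c m - 1) := by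
      rw [sum_sub_distrib]
      simp
    have h1 : |∑ m ∈ Icc 1 N, (c m - 1)| ≤ N * (Real.log (Y + 3) ^ E + 1) := by
      refine (abs_sum_le_sum_abs _ _).trans ?_
      have h2 : ∀ m ∈ Icc 1 N, |c m - 1| ≤ Real.log (Y + 3) ^ E + 1 := by
        intro m hm
        rw [mem_Icc] at hm
        have h3 := hE m
        have h4 : (m : ℝ) ≤ Y := by
          have : (m : ℝ) ≤ N := by exact_mod_cast hm.2
          linarith
        have h5 : Real.log ((m : ℝ) + 3) ≤ Real.log (Y + 3) :=
          Real.log_le_log (by positivity) (by linarith)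
        have h6 : 0 ≤ Real.log ((m : ℝ) + 3) := Real.log_nonneg (by
          have : (0 : ℝ) ≤ m := Nat.cast_nonneg _
          linarith)
        have h7 := pow_le_pow_left₀ h6 h5 E
        have h8 : |c m - 1| ≤ |c m| + |(1 : ℝ)| := abs_sub _ _
        rw [abs_one] at h8
        linarith
      refine (sum_le_sum h2).trans ?_
      rw [sum_const, nsmul_eq_mul]
      simp
    rw [e1]
    have h2 : (N : ℝ) * (Real.log (Y + 3) ^ E + 1) ≤
        Real.sqrt Y * (Real.log (Y + 3) ^ E + 1) :=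
      mul_le_mul_of_nonneg_right h.le (by positivity)
    have h3 : 0 ≤ |C| * 2 ^ (A + 1) * Y / Real.log Y ^ (A + 1) := by positivity
    linarith

theorem int_zero {c : ℕ → ℝ} {E : ℕ} (hE : Gr E c) {A : ℕ} {C : ℝ}
    (hC : ∀ N : ℕ, 2 ≤ N → |∑ m ∈ Icc 1 N, c m - N| ≤ C * N / Real.log N ^ (A + 1))
    {Y : ℝ} (hY : 4 ≤ Y) {y : ℝ} (hy : y ≤ Y) :
    |∫ u in (0 : ℝ)..y, ct c u| ≤ BB C A E Y := by
  have hY0 : (0 : ℝ) < Y := by linarith
  have hlogY : 0 < Real.log Y := Real.log_pos (by linarith)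
  have hlog3 : 0 ≤ Real.log (Y + 3) := Real.log_nonneg (by linarith)
  have hBB : 0 ≤ BB C A E Y := by unfold BB; positivity
  rcases lt_or_ge y 0 with h | h
  · have h1 : ∫ u in (0 : ℝ)..y, ct c u = ∫ u in (0 : ℝ)..y, (0 : ℝ) := by
      rw [intervalIntegral.integral_symm, intervalIntegral.integral_symm y 0]
      congr 1
      rw [intervalIntegral.integral_of_le h.le, intervalIntegral.integral_of_le h.le,
        integral_Ioc_eq_integral_Ioo, integral_Ioc_eq_integral_Ioo]
      refine setIntegral_congr_fun measurableSet_Ioo fun u hu => ?_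
      unfold ct
      rw [if_neg (by linarith [hu.2])]
    rw [h1]
    simpa using hBB
  · set k := ⌊y⌋₊ with hk
    have hky : (k : ℝ) ≤ y := Nat.floor_le h
    have hky' : y < k + 1 := Nat.lt_floor_add_one y
    rw [← intervalIntegral.integral_add_adjacent_intervals (ct_ii hE 0 k) (ct_ii hE k y), int_nat hE]
    have h1 : |∫ u in (k : ℝ)..y, ct c u| ≤ Real.log (Y + 3) ^ E + 1 := by
      have h2 := intervalIntegral.norm_integral_le_of_norm_le_const (a := (k : ℝ)) (b := y)
        (f := ct c) (C := Real.log (Y + 3) ^ E + 1) (fun u hu => by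
          rw [Set.uIoc_of_le hky] at hu
          rw [Real.norm_eq_abs]
          exact ct_bound hE hY0.le (hu.2.trans hy))
      rw [Real.norm_eq_abs, abs_of_nonneg (by linarith : 0 ≤ y - k)] at h2
      refine h2.trans ?_
      have h3 : 0 ≤ Real.log (Y + 3) ^ E + 1 := by positivity
      calc (Real.log (Y + 3) ^ E + 1) * (y - k) ≤ (Real.log (Y + 3) ^ E + 1) * 1 :=
            mul_le_mul_of_nonneg_left (by linarith) h3
        _ = _ := mul_one _
    have h2 : |∑ m ∈ range k, (c m - 1)| ≤ (Real.log (Y + 3) ^ E + 1) +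
        (|C| * 2 ^ (A + 1) * Y / Real.log Y ^ (A + 1) +
          Real.sqrt Y * (Real.log (Y + 3) ^ E + 1)) := by
      rcases Nat.eq_zero_or_pos k with h0 | h0
      · rw [h0]
        simp only [range_zero, sum_empty, abs_zero]
        positivity
      · obtain ⟨N, hN⟩ : ∃ N, k = N + 1 := ⟨k - 1, by omega⟩
        rw [hN, sum_eq]
        refine (abs_add_le _ _).trans (add_le_add ?_ ?_)
        · have h3 := ct_bound hE hY0.le (y := 0) hY0.le
          unfold ct at h3
          simpa using h3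
        · refine sum_bound hE hC hY ?_
          rw [hN] at hky
          push_cast at hky
          linarith
    refine (abs_add_le _ _).trans ?_
    unfold BB
    linarith

theorem t_INT : S_INT := by
  intro c E hM hE A
  obtain ⟨C, hC⟩ := hM (A + 1)
  have hlo := (isLittleO_log_rpow_rpow_atTop ((E + A : ℕ) : ℝ)
    (show (0 : ℝ) < 1 / 2 by norm_num)).bound (show (0 : ℝ) < 1 / 2 ^ (E + 4) by positivity)
  have hl1 := Real.tendsto_log_atTop.eventually_ge_atTop (4 * |C| * 2 ^ (A + 1))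
  have hl2 := Real.tendsto_log_atTop.eventually_ge_atTop 1
  filter_upwards [hlo, hl1, hl2, eventually_ge_atTop 4] with Y h1 h2 h3 h4
  intro y₁ y₂ _ hy hy2
  have hY0 : (0 : ℝ) < Y := by linarith
  have hlogY : 0 < Real.log Y := by linarith
  have e1 : ∫ y in y₁..y₂, ct c y = (∫ y in (0 : ℝ)..y₂, ct c y) - ∫ y in (0 : ℝ)..y₁, ct c y := by
    rw [intervalIntegral.integral_interval_sub_left (ct_ii hE 0 y₂) (ct_ii hE 0 y₁)]
  have g1 := int_zero hE hC h4 hy2
  have g2 := int_zero hE hC h4 (hy.trans hy2)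
  have g3 : |∫ y in y₁..y₂, ct c y| ≤ 2 * BB C A E Y := by
    rw [e1]
    refine (abs_sub _ _).trans ?_
    linarith
  refine g3.trans ?_
  -- the two halves
  have k1 : 2 * (|C| * 2 ^ (A + 1) * Y / Real.log Y ^ (A + 1)) ≤ Y / Real.log Y ^ A / 2 := by
    have e2 : 2 * (|C| * 2 ^ (A + 1) * Y / Real.log Y ^ (A + 1)) =
        (4 * |C| * 2 ^ (A + 1)) * (Y / Real.log Y ^ A / 2 / Real.log Y) := by
      rw [pow_succ (Real.log Y)]
      field_simp
      ring
    rw [e2]
    calc (4 * |C| * 2 ^ (A + 1)) * (Y / Real.log Y ^ A / 2 / Real.log Y) ≤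
        Real.log Y * (Y / Real.log Y ^ A / 2 / Real.log Y) :=
          mul_le_mul_of_nonneg_right h2 (by positivity)
      _ = _ := by field_simp
  have hsq : Real.sqrt Y * Real.sqrt Y = Y := Real.mul_self_sqrt hY0.le
  have hs2 : 2 ≤ Real.sqrt Y := by
    rw [show (2 : ℝ) = Real.sqrt 4 by rw [show (4 : ℝ) = 2 ^ 2 by norm_num]; simp]
    exact Real.sqrt_le_sqrt h4
  have k2 : 2 ^ (E + 4) * Real.log Y ^ (E + A) ≤ Real.sqrt Y := by
    rw [Real.rpow_natCast, Real.norm_of_nonneg (by positivity), ← Real.sqrt_eq_rpow,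
      Real.norm_of_nonneg (Real.sqrt_nonneg _), one_div, inv_mul_eq_div,
      le_div_iff₀ (by positivity)] at h1
    linarith
  have k3 : Real.log (Y + 3) ^ E + 1 ≤ 2 * (2 * Real.log Y) ^ E := by
    have h5 : Real.log (Y + 3) ≤ 2 * Real.log Y := by
      have : 2 * Real.log Y = Real.log (Y ^ 2) := by rw [Real.log_pow]; norm_num
      rw [this]
      exact Real.log_le_log (by linarith) (by nlinarith)
    have h6 : 0 ≤ Real.log (Y + 3) := Real.log_nonneg (by linarith)
    have h7 := pow_le_pow_left₀ h6 h5 E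
    have h8 : (1 : ℝ) ≤ (2 * Real.log Y) ^ E := one_le_pow₀ (by linarith)
    linarith
  have k4 : 2 * ((Real.sqrt Y + 2) * (Real.log (Y + 3) ^ E + 1)) ≤ Y / Real.log Y ^ A / 2 := by
    have h5 : (Real.sqrt Y + 2) * (Real.log (Y + 3) ^ E + 1) ≤
        (2 * Real.sqrt Y) * (2 * (2 * Real.log Y) ^ E) := by
      have h6 : 0 ≤ Real.log (Y + 3) := Real.log_nonneg (by linarith)
      exact mul_le_mul (by linarith) k3 (by positivity) (by positivity)
    have h6 : 0 < Real.log Y ^ A := by positivity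
    rw [div_div, le_div_iff₀ (by positivity)]
    calc 2 * ((Real.sqrt Y + 2) * (Real.log (Y + 3) ^ E + 1)) * (Real.log Y ^ A * 2) ≤
        2 * ((2 * Real.sqrt Y) * (2 * (2 * Real.log Y) ^ E)) * (Real.log Y ^ A * 2) := by
          apply mul_le_mul_of_nonneg_right _ (by positivity)
          linarith
      _ = Real.sqrt Y * (2 ^ (E + 4) * Real.log Y ^ (E + A)) := by
          rw [mul_pow, pow_add, pow_add]
          ring
      _ ≤ Real.sqrt Y * Real.sqrt Y := mul_le_mul_of_nonneg_left k2 (Real.sqrt_nonneg _)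
      _ = Y := hsq
  unfold BB
  linarith

end Pool.Agent.D0H12.GF
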