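import Pool.Agent.D0H11.GF.Stm

/-! Project GF, module 3 (PAIRD): from two variables to `d` variables. -/

set_option autoImplicit false

namespace Pool.Agent.D0H12.GF

open Finset MeasureTheory Filter
open Pool.Agent.D0H11.GF

/-- the measure on the interval -/
noncomputable def mI (K : ℝ) : Measure ℝ := volume.restrict (Set.Icc (-K) K)

/-- the measure on the cube -/
noncomputable def mC (d : ℕ) (K : ℝ) : Measure (Fin d → ℝ) := volume.restrict (bx d K)

theorem mem_bx {d : ℕ} {K : ℝ} {b : Fin d → ℝ} : b ∈ bx d K ↔ ∀ k, -K ≤ b k ∧ b k ≤ K := by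
  unfold bx
  rw [Set.mem_Icc, Pi.le_def, Pi.le_def]
  exact ⟨fun h k => ⟨h.1 k, h.2 k⟩, fun h => ⟨fun k => (h k).1, fun k => (h k).2⟩⟩

theorem mp (n : ℕ) (K : ℝ) (i : Fin (n + 1)) :
    MeasurePreserving (MeasurableEquiv.piFinSuccAbove (fun _ => ℝ) i).symm ((mI K).prod (mC n K))
      (mC (n + 1) K) := by
  have h0 := (volume_preserving_piFinSuccAbove (fun _ : Fin (n + 1) => ℝ) i).symm
  have h1 := h0.restrict_preimage (s := bx (n + 1) K) measurableSet_Icc
  have h2 : (MeasurableEquiv.piFinSuccAbove (fun _ => ℝ) i).symm ⁻¹' (bx (n + 1) K) =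
      (Set.Icc (-K) K) ×ˢ (bx n K) := by
    ext ⟨s, b⟩
    rw [Set.mem_preimage, mem_bx, Set.mem_prod, mem_bx, Set.mem_Icc]
    constructor
    · intro h
      constructor
      · have := h i
        simpa using this
      · intro k
        have := h (i.succAbove k)
        simpa using this
    · rintro ⟨g1, g2⟩ k
      rcases Fin.eq_self_or_eq_succAbove i k with rfl | ⟨l, rfl⟩
      · simpa using g1
      · simpa using g2 l
  rw [h2] at h1
  unfold mI mC
  rw [Measure.prod_restrict]
  exact h1

theorem split1 (n : ℕ) (K : ℝ) (i : Fin (n + 1)) (f : (Fin (n + 1) → ℝ) → ℝ)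
    (hf : Integrable f (mC (n + 1) K)) :
    ∫ b, f b ∂(mC (n + 1) K) = ∫ b, ∫ s, f (i.insertNth s b) ∂(mI K) ∂(mC n K) ∧
    Integrable (fun b => ∫ s, f (i.insertNth s b) ∂(mI K)) (mC n K) := by
  have h0 := mp n K i
  have : SFinite (mI K) := by unfold mI; infer_instance
  have : SFinite (mC n K) := by unfold mC; infer_instance
  have h1 : Integrable (fun z : ℝ × (Fin n → ℝ) => f (i.insertNth z.1 z.2))
      ((mI K).prod (mC n K)) := by
    have := (h0.integrable_comp_emb (MeasurableEquiv.measurableEmbedding _)).2 hf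
    exact this
  constructor
  · have h2 := h0.integral_comp' f
    rw [← h2]
    exact integral_prod_symm _ h1
  · exact h1.integral_prod_right

theorem t_PAIRD : S_PAIR2 → S_PAIRD := by
  intro hP F Y L e K hB hK d v v' γ γ' hbd i j hij hδ
  obtain ⟨hFm, hY, hL, he, hFb, hFi⟩ := hB
  -- the dimension
  obtain ⟨n, rfl⟩ : ∃ n, d = n + 2 := by
    have h1 := i.isLt
    have h2 := j.isLt
    have h3 : (i : ℕ) ≠ j := fun h => hij (Fin.ext h)
    exact ⟨d - 2, by omega⟩
  obtain ⟨j', rfl⟩ := Fin.exists_succAbove_eq hij.symm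
  set f : (Fin (n + 2) → ℝ) → ℝ := fun b => F (γ + ∑ k, b k * v k) * F (γ' + ∑ k, b k * v' k) with hf
  have hfm : Measurable f := by
    apply Measurable.mul
    · exact hFm.comp (by fun_prop)
    · exact hFm.comp (by fun_prop)
  have hfin : volume (bx (n + 2) K) < ⊤ := by
    unfold bx
    exact isCompact_Icc.measure_lt_top
  have hfi : Integrable f (mC (n + 2) K) := by
    unfold mC
    refine Measure.integrableOn_of_bounded (M := L * L) hfin.ne hfm.aestronglyMeasurable ?_
    refine (ae_restrict_iff' measurableSet_Icc).2 (Eventually.of_forall fun b hb => ?_)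
    have h1 := hbd b hb
    rw [hf]
    simp only [norm_mul, Real.norm_eq_abs]
    exact mul_le_mul (hFb _ h1.1) (hFb _ h1.2) (abs_nonneg _) hL
  obtain ⟨h1, h2⟩ := split1 (n + 1) K i f hfi
  obtain ⟨h3, -⟩ := split1 n K j' _ h2
  have h4 : ∫ b in bx (n + 2) K, f b =
      ∫ b, ∫ t, ∫ s, f (i.insertNth s (j'.insertNth t b)) ∂(mI K) ∂(mI K) ∂(mC n K) := by
    have : ∫ b in bx (n + 2) K, f b = ∫ b, f b ∂(mC (n + 2) K) := rfl
    rw [this, h1, h3]
  have h5 : ∀ b ∈ bx n K, ‖∫ t, ∫ s, f (i.insertNth s (j'.insertNth t b)) ∂(mI K) ∂(mI K)‖ ≤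
      2 * Y * L * e / |v i * v' (i.succAbove j') - v (i.succAbove j') * v' i| := by
    intro b hb
    rw [Real.norm_eq_abs]
    set c₁ : ℝ := γ + ∑ l, b l * v (i.succAbove (j'.succAbove l)) with hc₁
    set c₂ : ℝ := γ' + ∑ l, b l * v' (i.succAbove (j'.succAbove l)) with hc₂
    have hsum : ∀ (s t g : ℝ) (u : Fin (n + 2) → ℝ),
        g + ∑ k, (i.insertNth s (j'.insertNth t b) : Fin (n + 2) → ℝ) k * u k =
        u i * s + u (i.succAbove j') * t + (g + ∑ l, b l * u (i.succAbove (j'.succAbove l))) := by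
      intro s t g u
      rw [Fin.sum_univ_succAbove _ i, Fin.sum_univ_succAbove _ j']
      simp only [Fin.insertNth_apply_same, Fin.insertNth_apply_succAbove]
      ring
    have hmem : ∀ s t : ℝ, |s| ≤ K → |t| ≤ K →
        (i.insertNth s (j'.insertNth t b) : Fin (n + 2) → ℝ) ∈ bx (n + 2) K := by
      intro s t hs ht
      rw [abs_le] at hs ht
      rw [mem_bx]
      intro k
      rcases Fin.eq_self_or_eq_succAbove i k with rfl | ⟨l, rfl⟩
      · simpa using hs
      · rcases Fin.eq_self_or_eq_succAbove j' l with rfl | ⟨m, rfl⟩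
        · simpa using ht
        · simpa using (mem_bx.1 hb) m
    have hcomm : v' i * v (i.succAbove j') = v (i.succAbove j') * v' i := mul_comm _ _
    have h6 := hP F Y L e K ⟨hFm, hY, hL, he, hFb, hFi⟩ hK (v i) (v (i.succAbove j')) c₁ (v' i)
      (v' (i.succAbove j')) c₂
      (fun s t hs ht => by
        have h7 := hbd _ (hmem s t hs ht)
        rw [hsum, hsum] at h7
        exact h7) (by rw [mul_comm (v (i.succAbove j'))] at hδ; exact hδ)
    have hle : -K ≤ K := by linarith
    rw [intervalIntegral.integral_of_le hle, ← integral_Icc_eq_integral_Ioc] at h6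
    try rw [hcomm] at h6
    refine le_trans (le_of_eq ?_) h6
    congr 1
    unfold mI
    refine integral_congr_ae (Eventually.of_forall fun t => ?_)
    simp only
    rw [intervalIntegral.integral_of_le hle, ← integral_Icc_eq_integral_Ioc]
    refine integral_congr_ae (Eventually.of_forall fun s => ?_)
    simp only [hf]
    rw [hsum, hsum]
  rw [h4]
  have hvol : volume.real (bx n K) = (2 * K) ^ n := by
    unfold bx Measure.real
    rw [Real.volume_Icc_pi]
    simp only [Finset.prod_const, Finset.card_univ, Fintype.card_fin]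
    rw [ENNReal.toReal_pow, ENNReal.toReal_ofReal (by linarith)]
    congr 1
    ring
  have h7 := norm_setIntegral_le_of_norm_le_const (μ := volume) (s := bx n K)
    (f := fun b => ∫ t, ∫ s, f (i.insertNth s (j'.insertNth t b)) ∂(mI K) ∂(mI K))
    (C := 2 * Y * L * e / |v i * v' (i.succAbove j') - v (i.succAbove j') * v' i|)
    (by unfold bx; exact isCompact_Icc.measure_lt_top) h5
  rw [hvol] at h7
  have h8 : (n + 2 - 2 : ℕ) = n := by omega
  rw [h8]
  unfold mC
  rw [← Real.norm_eq_abs]
  refine h7.trans (le_of_eq ?_)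
  ring

end Pool.Agent.D0H12.GF
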